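import Pool.Agent.H24.RRP

namespace Pool.Agent.Results.MP_bcc052_lc.AllEquivalent

open Pool.Agent.H24.RCA Pool.Agent.H24.RRP

/-- Over `RCA₀` all the principles `RRP_k`, `k ≥ 2`, are equivalent: for every model `(M, S)` of
`RCA₀`, every coding `E` of the finite sets of the model by numbers and all `k, l ≥ 2`,
`RRP_k` holds if and only if `RRP_l` holds. In particular `RRP_k` and `RRP_{k+1}` are equivalent
for every `k ≥ 2`. -/
theorem result :
    ∀ (M : Type) [CommSemiring M] [LinearOrder M] [IsStrictOrderedRing M] (S : Set (Set M)),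
      Model M S → ∀ E : Set M, Coding S E → ∀ k l : ℕ, 2 ≤ k → 2 ≤ l →
        (RRP S E k ↔ RRP S E l) := by
  intro M _ _ _ S hmod E hE
  have up : ∀ k, 2 ≤ k → (RRP S E 2 ↔ RRP S E k) := by
    intro k hk
    induction k, hk using Nat.le_induction with
    | base => exact Iff.rfl
    | succ n hn ih => exact ih.trans ⟨RRP_succ hmod hE hn, RRP_pred⟩
  intro k l hk hl
  exact (up k hk).symm.trans (up l hl)

end Pool.Agent.Results.MP_bcc052_lc.AllEquivalent
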